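import Pool.Agent.Helper60.Quas.Lower
import Pool.Agent.Helper60.Quas.Upper

namespace Pool.Agent.Results.MP_890ede_al.EvenOrders

open Pool.Agent.Helper60.Quas

/-- For every even `n ≥ 22` the least positive number of non-associative triples of a
quasigroup of order `n` is `16 n - 64`. -/
theorem result (n : ℕ) (hn : 22 ≤ n) (heven : Even n) :
    IsLeast (positiveCounts n) (16 * n - 64) := by
  obtain ⟨k, hk⟩ := heven
  have hk2 : n = 2 * k := by omega
  have hk11 : 11 ≤ k := by omega
  have : NeZero k := ⟨by omega⟩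
  have : Fact (1 < k) := ⟨by omega⟩
  have h1 : (1 : ZMod k) ≠ 0 := one_ne_zero
  have h2 : (1 : ZMod k) + 1 ≠ 0 := by
    intro h
    have h3 : ((2 : ℕ) : ZMod k) = 0 := by
      rw [← h]; norm_num
    rw [ZMod.natCast_eq_zero_iff] at h3
    have := Nat.le_of_dvd (by norm_num) h3
    omega
  have hcardE : Fintype.card (ZMod 2 × ZMod k) = n := by
    rw [Fintype.card_prod, ZMod.card, ZMod.card, hk2]
  let e : ZMod 2 × ZMod k ≃ Fin n := Fintype.equivFinOfCardEq hcardE
  have hq := transport_isQuasigroup e (opE_isQuasigroup k)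
  have hc := transport_nonAssoc e (opE k)
  have hpos := opE_pos k h1 h2
  have hle := obsE_sum k h1
  have hcount := opE_count k
  have hlow := lower_even hq hk11 (by rw [Fintype.card_fin, hk2]) (by rw [hc]; exact hpos)
  constructor
  · refine ⟨by omega, _, hq, ?_⟩
    rw [hc] at hlow ⊢
    omega
  · rintro s ⟨hs, m, hm, rfl⟩
    have := lower_even hm hk11 (by rw [Fintype.card_fin, hk2]) hs
    omega

end Pool.Agent.Results.MP_890ede_al.EvenOrders
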