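import Pool.Agent.Helper32.Q5.Lower7
import Pool.Agent.Helper32.Q5.Upper

namespace Pool.Agent.Results.MP_890ede_al.MultiplesOfFive

open Pool.Agent.Helper60.Quas Pool.Agent.Helper32.Q5

/-- For every `n ≥ 50` divisible by `5` but not by `2` or `3`, the least positive number of
non-associative triples of a quasigroup of order `n` is `32 n - 114`. -/
theorem result (n : ℕ) (hn : 50 ≤ n) (h2 : ¬ 2 ∣ n) (h3 : ¬ 3 ∣ n) (h5 : 5 ∣ n) :
    IsLeast (positiveCounts n) (32 * n - 114) := by
  have hn' : 55 ≤ n := by omega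
  obtain ⟨k, hk⟩ := h5
  have : NeZero k := ⟨by omega⟩
  have hcardE : Fintype.card (ZMod 5 × ZMod k) = n := by
    rw [Fintype.card_prod, ZMod.card, ZMod.card, hk]
  let e : ZMod 5 × ZMod k ≃ Fin n := Fintype.equivFinOfCardEq hcardE
  have hq := transport_isQuasigroup e (opX_isQuasigroup T5 k good5.hl good5.hr)
  have hc := transport_nonAssoc e (opX T5 k)
  have hex := opX_exact good5 k
  constructor
  · refine ⟨by omega, _, hq, ?_⟩
    rw [hc]
    omega
  · rintro s ⟨hs, m', hm', rfl⟩
    have := lower5' hm' (by rw [Fintype.card_fin]; exact hn') (by rw [Fintype.card_fin]; exact h2)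
      (by rw [Fintype.card_fin]; exact h3) hs
    rw [Fintype.card_fin] at this
    omega

end Pool.Agent.Results.MP_890ede_al.MultiplesOfFive
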