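import Pool.Agent.Helper32.Q5.Lower7
import Pool.Agent.Helper32.Q5.Upper7

namespace Pool.Agent.Results.MP_890ede_al.MultiplesOfSeven

open Pool.Agent.Helper60.Quas Pool.Agent.Helper32.Q5

/-- For every `n ≥ 50` divisible by `7` but not by `2`, `3` or `5`, the least positive number of
non-associative triples of a quasigroup of order `n` is `36 n - 134`. -/
theorem result (n : ℕ) (hn : 50 ≤ n) (h2 : ¬ 2 ∣ n) (h3 : ¬ 3 ∣ n) (h5 : ¬ 5 ∣ n) (h7 : 7 ∣ n) :
    IsLeast (positiveCounts n) (36 * n - 134) := by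
  have hn' : 77 ≤ n := by omega
  obtain ⟨k, hk⟩ := h7
  have : NeZero k := ⟨by omega⟩
  have hcardE : Fintype.card (ZMod 7 × ZMod k) = n := by
    rw [Fintype.card_prod, ZMod.card, ZMod.card, hk]
  let e : ZMod 7 × ZMod k ≃ Fin n := Fintype.equivFinOfCardEq hcardE
  have hq := transport_isQuasigroup e (opX_isQuasigroup T7 k good7.hl good7.hr)
  have hc := transport_nonAssoc e (opX T7 k)
  have hex := opX_exact good7 k
  constructor
  · refine ⟨by omega, _, hq, ?_⟩
    rw [hc]
    omega
  · rintro s ⟨hs, m', hm', rfl⟩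
    have := lower7 hm' (by rw [Fintype.card_fin]; exact hn') (by rw [Fintype.card_fin]; exact h2)
      (by rw [Fintype.card_fin]; exact h3) (by rw [Fintype.card_fin]; exact h5) hs
    rw [Fintype.card_fin] at this
    omega

end Pool.Agent.Results.MP_890ede_al.MultiplesOfSeven
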