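import Pool.Agent.Helper60.Quas.LowerOdd
import Pool.Agent.Helper60.Quas.UpperOdd

namespace Pool.Agent.Results.MP_890ede_al.OddMultiplesOfThree

open Pool.Agent.Helper60.Quas

/-- For every odd `n ≥ 39` divisible by `3` the least positive number of non-associative triples
of a quasigroup of order `n` is `24 n - 90`. -/
theorem result (n : ℕ) (hn : 39 ≤ n) (hodd : Odd n) (h3 : 3 ∣ n) :
    IsLeast (positiveCounts n) (24 * n - 90) := by
  obtain ⟨k, hk⟩ := hodd
  obtain ⟨m, hm⟩ := h3
  have hk18 : 18 ≤ k := by omega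
  have : NeZero m := ⟨by omega⟩
  have : Fact (1 < m) := ⟨by omega⟩
  have h1 : (1 : ZMod m) ≠ 0 := one_ne_zero
  have hcardE : Fintype.card (ZMod 3 × ZMod m) = n := by
    rw [Fintype.card_prod, ZMod.card, ZMod.card, hm]
  let e : ZMod 3 × ZMod m ≃ Fin n := Fintype.equivFinOfCardEq hcardE
  have hq := transport_isQuasigroup e (opO_isQuasigroup m)
  have hc := transport_nonAssoc e (opO m)
  have hpos := opO_pos m h1
  have hle := opO_upper m h1
  have hlow := lower_odd hq hk18 (by rw [Fintype.card_fin, hk]) (by rw [hc]; exact hpos)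
  constructor
  · refine ⟨by omega, _, hq, ?_⟩
    rw [hc] at hlow ⊢
    omega
  · rintro s ⟨hs, m', hm', rfl⟩
    have := lower_odd hm' hk18 (by rw [Fintype.card_fin, hk]) hs
    omega

end Pool.Agent.Results.MP_890ede_al.OddMultiplesOfThree
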